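import Pool.Agent.Q104.MD.Reg

/-!
# Project MD of helper82: the job I (reduction of (I) to the smooth strongly convex case)
-/

set_option autoImplicit false

namespace Pool.Agent.Q104.MD

open MeasureTheory Set Filter Topology
open Pool.Agent.W779.Morrey Pool.Agent.Q82.MD

theorem nn_tens (z ξ : V) : nn (tens z ξ) = dp z z * dp ξ ξ := by
  simp only [nn, tens, dp]
  ring

/-- The bilinear form of `nn`. -/
def nb (F H : E) : ℝ := F 0 0 * H 0 0 + F 0 1 * H 0 1 + F 1 0 * H 1 0 + F 1 1 * H 1 1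

theorem nn_line (F H : E) (t : ℝ) : nn (F + t • H) = nn F + 2 * nb F H * t + nn H * t ^ 2 := by
  simp only [nn, nb, Pi.add_apply, Pi.smul_apply, smul_eq_mul]
  ring

theorem nn_nonneg (F : E) : 0 ≤ nn F := by
  unfold nn
  positivity

theorem det_tens (z ξ : V) (c : ℝ) :
    Matrix.det ((c • tens z ξ : E) : Matrix (Fin 2) (Fin 2) ℝ) = 0 := by
  rw [Matrix.det_fin_two]
  simp only [tens, Pi.smul_apply, smul_eq_mul]
  ring

/-- Rank-one convexity is convexity along the rank-one lines. -/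
theorem roc_line {W : Matrix (Fin 2) (Fin 2) ℝ → ℝ} (hW : RankOneConvex W) (F : E) (z ξ : V) :
    ConvexOn ℝ univ (fun t : ℝ => W (F + t • tens z ξ)) := by
  have h := Pool.Agent.Helper188.Morrey.RankOneConvex.line (W := W) hW
    (F : Matrix (Fin 2) (Fin 2) ℝ) (tens z ξ : Matrix (Fin 2) (Fin 2) ℝ) (by
      rw [Matrix.det_fin_two]
      simp only [tens]
      ring)
  exact h

/-- A projection onto the range of `L`. -/
theorem exists_proj (L : E →L[ℝ] V) : ∃ P : V →ₗ[ℝ] V, (∀ F, P (L F) = L F) ∧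
    ∀ y, ∃ F, P y = L F := by
  obtain ⟨g, hg⟩ := (LinearMap.range (L : E →ₗ[ℝ] V)).subtype.exists_leftInverse_of_injective
    (Submodule.ker_subtype _)
  refine ⟨(LinearMap.range (L : E →ₗ[ℝ] V)).subtype ∘ₗ g, ?_, ?_⟩
  · intro F
    have h1 := congrArg (fun f => f ⟨L F, ⟨F, rfl⟩⟩) hg
    simp only [LinearMap.comp_apply, Submodule.subtype_apply, LinearMap.id_apply] at h1
    rw [LinearMap.comp_apply, Submodule.subtype_apply, h1]
  · intro y
    obtain ⟨F, hF⟩ := (g y).2
    exact ⟨F, by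
      rw [LinearMap.comp_apply, Submodule.subtype_apply, ← hF]
      rfl⟩

theorem norm_sq_le_nn (F : E) : ‖F‖ ^ 2 ≤ nn F := by
  have h1 : ‖F‖ ≤ Real.sqrt (nn F) := by
    rw [pi_norm_le_iff_of_nonneg (Real.sqrt_nonneg _)]
    intro i
    rw [pi_norm_le_iff_of_nonneg (Real.sqrt_nonneg _)]
    intro j
    rw [Real.norm_eq_abs]
    apply Real.abs_le_sqrt
    unfold nn
    fin_cases i <;> fin_cases j <;> simp <;> nlinarith [sq_nonneg (F 0 0), sq_nonneg (F 0 1),
      sq_nonneg (F 1 0), sq_nonneg (F 1 1)]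
  calc ‖F‖ ^ 2 ≤ Real.sqrt (nn F) ^ 2 := by
        apply pow_le_pow_left₀ (norm_nonneg _) h1
    _ = nn F := Real.sq_sqrt (nn_nonneg F)

theorem dp_self_le (a : V) : dp a a ≤ 2 * ‖a‖ ^ 2 := by
  unfold dp
  have h0 := norm_le_pi_norm a 0
  have h1 := norm_le_pi_norm a 1
  rw [Real.norm_eq_abs] at h0 h1
  have h2 := sq_le_sq' (by linarith [abs_le.mp h0]) (abs_le.mp h0).2
  have h3 := sq_le_sq' (by linarith [abs_le.mp h1]) (abs_le.mp h1).2
  nlinarith

theorem dp_L_le (L : E →L[ℝ] V) (H : E) : dp (L H) (L H) ≤ 2 * ‖L‖ ^ 2 * nn H := by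
  have h1 := dp_self_le (L H)
  have h2 := L.le_opNorm H
  have h3 : ‖L H‖ ^ 2 ≤ (‖L‖ * ‖H‖) ^ 2 := pow_le_pow_left₀ (norm_nonneg _) h2 2
  have h4 := norm_sq_le_nn H
  have h5 : ‖L‖ ^ 2 * ‖H‖ ^ 2 ≤ ‖L‖ ^ 2 * nn H := mul_le_mul_of_nonneg_left h4 (by positivity)
  nlinarith

/-- Averages of convex functions are convex. -/
theorem convex_int1 {μ : Measure V} {g : V → ℝ → ℝ} (hg : ∀ s, ConvexOn ℝ univ (g s))
    (hi : ∀ t, Integrable (fun s => g s t) μ) : ConvexOn ℝ univ (fun t => ∫ s, g s t ∂μ) := by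
  refine ⟨convex_univ, ?_⟩
  intro x _ y _ a b ha hb hab
  simp only [smul_eq_mul]
  rw [← integral_const_mul, ← integral_const_mul, ← integral_add ((hi x).const_mul a)
    ((hi y).const_mul b)]
  apply integral_mono (hi _) (((hi x).const_mul a).add ((hi y).const_mul b))
  intro s
  have h2 := (hg s).2 (mem_univ x) (mem_univ y) ha hb hab
  simp only [smul_eq_mul] at h2
  exact h2

theorem convex_quad (c0 c1 c2 : ℝ) (h : 0 ≤ c2) :
    ConvexOn ℝ univ (fun t : ℝ => c0 + c1 * t + c2 * t ^ 2) := by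
  refine ⟨convex_univ, ?_⟩
  intro x _ y _ a b ha hb hab
  simp only [smul_eq_mul]
  have : b = 1 - a := by linarith
  subst this
  nlinarith [mul_nonneg h (mul_nonneg (mul_nonneg ha hb) (sq_nonneg (x - y)))]

theorem i : S_MOLL → S_LIMQ → S_Is → S_I := by
  intro hmoll hlim his L K φ hK hφ hW
  obtain ⟨P, hP1, hP2⟩ := exists_proj L
  set φ' : V → ℝ := fun y => φ (P y) with hφ'
  have hφ'c : ConvexOn ℝ univ φ' := by
    have := hφ.comp_linearMap P
    rw [preimage_univ] at this
    exact this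
  have hφ'k : Continuous φ' := hφ'c.locallyLipschitz.continuous
  have hφL : ∀ F : E, φ' (L F) = φ (L F) := fun F => by
    simp only [hφ', hP1]
  -- convexity along the lines for all base points
  have hline : ∀ y z ξ : V, ConvexOn ℝ univ
      (fun t : ℝ => K / 2 * (dp z z * dp ξ ξ) * t ^ 2 - φ' (y + t • L (tens z ξ))) := by
    intro y z ξ
    obtain ⟨F, hF⟩ := hP2 y
    have h1 := roc_line hW F z ξ
    have h2 := h1.add (convex_quad (-(K / 2 * nn F)) (-(K / 2 * (2 * nb F (tens z ξ)))) 0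
      (le_refl _))
    refine h2.congr ?_
    intro t _
    have h3 : φ' (y + t • L (tens z ξ)) = φ (L (F + t • tens z ξ)) := by
      simp only [hφ', map_add, map_smul, hF, hP1]
    simp only [Pi.add_apply]
    rw [h3, nn_line, nn_tens]
    ring
  have hnnc : Continuous (fun F : Matrix (Fin 2) (Fin 2) ℝ => nn F) := by
    unfold nn
    fun_prop
  have hLc : Continuous (fun F : Matrix (Fin 2) (Fin 2) ℝ => L F) := L.continuous
  have hWc : Continuous (fun F : Matrix (Fin 2) (Fin 2) ℝ => K / 2 * nn F - φ (L F)) := by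
    have : (fun F : Matrix (Fin 2) (Fin 2) ℝ => K / 2 * nn F - φ (L F)) =
        fun F : Matrix (Fin 2) (Fin 2) ℝ => K / 2 * nn F - φ' (L F) := by
      funext F
      rw [hφL]
    rw [this]
    exact (continuous_const.mul hnnc).sub (hφ'k.comp hLc)
  apply hlim _ hWc
  intro R ε hR hε
  set C : ℝ := 2 * ‖L‖ ^ 2 + 1 with hC
  have hC1 : 1 ≤ C := by
    have : 0 ≤ ‖L‖ ^ 2 := by positivity
    linarith
  set R' : ℝ := ‖L‖ * R with hR'
  have hR'0 : 0 ≤ R' := by positivity
  set δ : ℝ := ε / (2 * (4 * C * R ^ 2 + 1)) with hδ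
  have hδ0 : 0 < δ := by positivity
  obtain ⟨r, hr0, hr⟩ : ∃ r : ℝ, 0 < r ∧ ∀ p s : V, (∀ i, |p i| ≤ R') → (∀ i, |s i| ≤ r) →
      |φ' (p + s) - φ' p| ≤ ε / 2 := by
    have huc := (isCompact_Icc (a := fun _ : Fin 2 => -(R' + 1)) (b := fun _ =>
      R' + 1)).uniformContinuousOn_of_continuous hφ'k.continuousOn
    rw [Metric.uniformContinuousOn_iff] at huc
    obtain ⟨δ', hδ', hh⟩ := huc (ε / 2) (by linarith)
    refine ⟨min (δ' / 2) 1, by positivity, ?_⟩
    intro p s hp hsr
    have hs1 : ∀ i, |s i| ≤ 1 := fun i => (hsr i).trans (min_le_right _ _)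
    have hs2 : ∀ i, |s i| ≤ δ' / 2 := fun i => (hsr i).trans (min_le_left _ _)
    have h1 := hh (p + s) (by
      rw [mem_Icc]
      constructor <;> intro i
      · have := abs_le.mp (hp i)
        have := abs_le.mp (hs1 i)
        simp only [Pi.add_apply]
        linarith
      · have := abs_le.mp (hp i)
        have := abs_le.mp (hs1 i)
        simp only [Pi.add_apply]
        linarith) p (by
      rw [mem_Icc]
      constructor <;> intro i
      · have := abs_le.mp (hp i)
        linarith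
      · have := abs_le.mp (hp i)
        linarith) (by
      rw [dist_eq_norm, add_sub_cancel_left, pi_norm_lt_iff hδ']
      intro i
      rw [Real.norm_eq_abs]
      linarith [hs2 i])
    rw [Real.dist_eq] at h1
    exact h1.le
  obtain ⟨μ, hμ, hs, hm, hCd⟩ := hmoll r hr0
  have hi : ∀ p : V, Integrable (fun s => φ' (p + s)) μ := fun p =>
    integ hs (hφ'k.comp (continuous_const.add continuous_id))
  set φj : V → ℝ := fun y => ∫ s, φ' (y + s) ∂μ + δ / 2 * dp y y with hφj
  have hφjd : ContDiff ℝ 2 φj := (hCd φ' hφ'k).add (contDiff_const.mul contDiff_dp_self)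
  have hK' : 0 < K + δ * C := by positivity
  have h1 := his L (K + δ * C) δ φj hK' hδ0 hφjd (by
    refine (convex_int hs hφ'k hφ'c).congr ?_
    intro y _
    simp only [hφj]
    ring) (by
    intro y z ξ
    have e1 : ConvexOn ℝ univ (fun t : ℝ => ∫ s, (K / 2 * (dp z z * dp ξ ξ) * t ^ 2 -
        φ' ((y + s) + t • L (tens z ξ))) ∂μ) := by
      apply convex_int1
      · intro s
        exact hline (y + s) z ξ
      · intro t
        apply integ hs
        refine continuous_const.sub (hφ'k.comp ?_)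
        fun_prop
    have hcoef : 0 ≤ δ / 2 * (C * (dp z z * dp ξ ξ) - dp (L (tens z ξ)) (L (tens z ξ))) := by
      have h2 := dp_L_le L (tens z ξ)
      rw [nn_tens] at h2
      have h3 : 0 ≤ dp z z * dp ξ ξ := mul_nonneg (dp_self_nonneg z) (dp_self_nonneg ξ)
      have : 2 * ‖L‖ ^ 2 * (dp z z * dp ξ ξ) ≤ C * (dp z z * dp ξ ξ) := by
        apply mul_le_mul_of_nonneg_right _ h3
        linarith
      apply mul_nonneg (by positivity)
      linarith
    have e2 := e1.add (convex_quad (-(δ / 2 * dp y y)) (-(δ / 2 * (2 * dp y (L (tens z ξ)))))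
      (δ / 2 * (C * (dp z z * dp ξ ξ) - dp (L (tens z ξ)) (L (tens z ξ)))) hcoef)
    refine e2.congr ?_
    intro t _
    simp only [Pi.add_apply, hφj]
    have e3 : ∫ s, (K / 2 * (dp z z * dp ξ ξ) * t ^ 2 - φ' ((y + s) + t • L (tens z ξ))) ∂μ =
        K / 2 * (dp z z * dp ξ ξ) * t ^ 2 - ∫ s, φ' (y + t • L (tens z ξ) + s) ∂μ := by
      have e4 : ∀ s : V, K / 2 * (dp z z * dp ξ ξ) * t ^ 2 - φ' ((y + s) + t • L (tens z ξ)) =
          K / 2 * (dp z z * dp ξ ξ) * t ^ 2 - φ' (y + t • L (tens z ξ) + s) := by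
        intro s
        congr 2
        abel
      rw [integral_congr_ae (Eventually.of_forall e4), integral_sub (integrable_const _) (hi _),
        integral_const]
      simp
    rw [e3, dp_line]
    ring)
  refine ⟨fun F => (K + δ * C) / 2 * nn F - φj (L F), ?_, h1, ?_⟩
  · exact (continuous_const.mul hnnc).sub (hφjd.continuous.comp hLc)
  · intro F hF
    have hnF : nn F ≤ 4 * R ^ 2 := by
      unfold nn
      have h := fun i j => sq_le_sq' (abs_le.mp (hF i j)).1 (abs_le.mp (hF i j)).2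
      linarith [h 0 0, h 0 1, h 1 0, h 1 1]
    have hnF0 := nn_nonneg F
    have hFn : ‖(show E from F)‖ ≤ R := by
      rw [pi_norm_le_iff_of_nonneg hR.le]
      intro i
      rw [pi_norm_le_iff_of_nonneg hR.le]
      intro j
      rw [Real.norm_eq_abs]
      exact hF i j
    have hLF : ∀ i, |(L F) i| ≤ R' := by
      intro i
      have h2 := norm_le_pi_norm (L F) i
      rw [Real.norm_eq_abs] at h2
      have h3 := L.le_opNorm F
      have h4 : ‖L‖ * ‖(show E from F)‖ ≤ ‖L‖ * R := mul_le_mul_of_nonneg_left hFn (norm_nonneg _)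
      exact h2.trans (h3.trans h4)
    have h2 : |∫ s, φ' (L F + s) ∂μ - φ' (L F)| ≤ ε / 2 := by
      have h3 : ∫ s, φ' (L F + s) ∂μ - φ' (L F) = ∫ s, (φ' (L F + s) - φ' (L F)) ∂μ := by
        rw [integral_sub (hi _) (integrable_const _), integral_const]
        simp
      rw [h3]
      have h4 := norm_integral_le_of_norm_le_const (μ := μ) (f := fun s => φ' (L F + s) - φ' (L F))
        (C := ε / 2) (by
          filter_upwards [hs] with s hs
          rw [Real.norm_eq_abs]
          exact hr (L F) s hLF hs)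
      simpa using h4
    have h5 : dp (L F) (L F) ≤ C * nn F := by
      have := dp_L_le L F
      have h6 : 2 * ‖L‖ ^ 2 * nn F ≤ C * nn F := mul_le_mul_of_nonneg_right (by linarith) hnF0
      linarith
    have h6 := dp_self_nonneg (L F)
    have h7 : δ / 2 * (C * nn F) ≤ ε / 2 := by
      calc δ / 2 * (C * nn F) ≤ δ / 2 * (C * (4 * R ^ 2)) := by
            apply mul_le_mul_of_nonneg_left _ (by positivity)
            exact mul_le_mul_of_nonneg_left hnF (by linarith)
        _ ≤ δ * (4 * C * R ^ 2 + 1) := by nlinarith [mul_nonneg hδ0.le (by positivity : (0:ℝ) ≤ 4 * C * R ^ 2)]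
        _ = ε / 2 := by
          rw [hδ]
          field_simp
    have h8 : K / 2 * nn F - φ (L F) - ((K + δ * C) / 2 * nn F - φj (L F)) =
        (∫ s, φ' (L F + s) ∂μ - φ' (L F)) + (δ / 2 * dp (L F) (L F) - δ / 2 * (C * nn F)) := by
      simp only [hφj]
      rw [hφL]
      ring
    change |K / 2 * nn F - φ (L F) - ((K + δ * C) / 2 * nn F - φj (L F))| ≤ ε
    rw [h8]
    have h9 : 0 ≤ δ / 2 * dp (L F) (L F) := by positivity
    have h10 : δ / 2 * dp (L F) (L F) ≤ δ / 2 * (C * nn F) :=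
      mul_le_mul_of_nonneg_left h5 (by positivity)
    have h11 := abs_le.mp h2
    rw [abs_le]
    constructor <;> linarith

end Pool.Agent.Q104.MD
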