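import Pool.Agent.Q104.MD.ImI

/-!
# Project MD of helper82: the job IS (the smooth strongly convex case of (I))
-/

set_option autoImplicit false

namespace Pool.Agent.Q104.MD

open MeasureTheory Set Filter Topology
open Pool.Agent.W779.Morrey Pool.Agent.Q82.MD

/-- The gradient. -/
noncomputable def gp (φ : V → ℝ) (y : V) : V := fun i => fderiv ℝ φ y (Pi.single i 1)

theorem dp_gp (φ : V → ℝ) (y z : V) : dp (gp φ y) z = fderiv ℝ φ y z := by
  have hz : z = z 0 • (Pi.single 0 1 : V) + z 1 • (Pi.single 1 1 : V) := by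
    funext i
    fin_cases i <;> simp
  conv_rhs => rw [hz]
  rw [map_add, map_smul, map_smul]
  simp only [dp, gp, smul_eq_mul]
  ring

theorem continuous_gp {φ : V → ℝ} (h : ContDiff ℝ 2 φ) : Continuous (gp φ) := by
  have h1 : Continuous (fderiv ℝ φ) := h.continuous_fderiv (by norm_num)
  apply continuous_pi
  intro i
  exact h1.clm_apply continuous_const

/-- The gradient inequality. -/
theorem gp_ineq {φ : V → ℝ} (h : ContDiff ℝ 2 φ) (hc : ConvexOn ℝ univ φ) (y z : V) :
    φ y + dp (gp φ y) (z - y) ≤ φ z := by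
  rw [dp_gp]
  have hline : HasDerivAt (fun t : ℝ => y + t • (z - y)) (z - y) 0 := by
    have := ((hasDerivAt_id (0:ℝ)).smul_const (z - y)).const_add y
    simpa using this
  have h2 : HasFDerivAt φ (fderiv ℝ φ y) (y + (0:ℝ) • (z - y)) := by
    rw [zero_smul, add_zero]
    exact (h.differentiable (by norm_num) y).hasFDerivAt
  have h3 := h2.comp_hasDerivAt (0:ℝ) hline
  have h4 : ConvexOn ℝ univ (fun t : ℝ => φ (y + t • (z - y))) := by
    refine ⟨convex_univ, ?_⟩
    intro a _ b _ u v hu hv huv
    have h5 := hc.2 (mem_univ (y + a • (z - y))) (mem_univ (y + b • (z - y))) hu hv huv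
    have h6 : y + (u • a + v • b) • (z - y) = u • (y + a • (z - y)) + v • (y + b • (z - y)) := by
      have : u = 1 - v := by linarith
      subst this
      simp only [smul_eq_mul]
      module
    simp only
    rw [h6]
    exact h5
  have h5 := h4.le_slope_of_hasDerivAt (mem_univ 0) (mem_univ 1) zero_lt_one h3
  rw [slope_def_field] at h5
  simp only [one_smul, zero_smul, add_zero, sub_zero, div_one] at h5
  rw [add_sub_cancel] at h5
  linarith

theorem Fam_bound {ι : Type} [Fintype ι] (k : ι → Fin 2 → ℤ) (A B : ι → E) (x : V) :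
    ‖Fam k A B 1 x‖ ≤ ∑ i, (‖A i‖ + ‖B i‖) := by
  unfold Fam
  refine (norm_sum_le _ _).trans (Finset.sum_le_sum fun i _ => ?_)
  rw [one_pow, one_smul]
  unfold tm
  refine (norm_add_le _ _).trans (add_le_add ?_ ?_)
  · rw [norm_smul, Real.norm_eq_abs]
    have := Real.abs_cos_le_one (ph (k i) x)
    nlinarith [norm_nonneg (A i)]
  · rw [norm_smul, Real.norm_eq_abs]
    have := Real.abs_sin_le_one (ph (k i) x)
    nlinarith [norm_nonneg (B i)]

theorem continuous_FamG {X : Type*} [NormedAddCommGroup X] [NormedSpace ℝ X] {ι : Type*}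
    [Fintype ι] (k : ι → Fin 2 → ℤ) (A B : ι → X) (s : ℝ) : Continuous (FamG k A B s) := by
  unfold FamG tmG
  refine continuous_finsetSum _ fun i _ => ?_
  refine continuous_const.smul ?_
  exact ((Real.continuous_cos.comp (continuous_ph (k i))).smul continuous_const).add
    ((Real.continuous_sin.comp (continuous_ph (k i))).smul continuous_const)

/-- The joint integrand. -/
noncomputable def HH (K : ℝ) (L : E →L[ℝ] V) (G : V → E) (ψ : V → ℝ) (x y : V) : ℝ :=
  K / 2 * nn (G x) - dp y (L (G x)) + ψ y

theorem continuous_nn : Continuous (fun F : E => nn F) := by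
  unfold nn
  fun_prop

theorem continuous_HH (K : ℝ) (L : E →L[ℝ] V) {G : V → E} {ψ : V → ℝ} (hG : Continuous G)
    (hψ : Continuous ψ) {u v : V → V} (hu : Continuous u) (hv : Continuous v) :
    Continuous (fun x => HH K L G ψ (u x) (v x)) := by
  unfold HH
  have h0 : Continuous (fun x => G (u x)) := hG.comp hu
  have h1 : Continuous (fun x => L (G (u x))) := L.continuous.comp h0
  have h2 : ∀ i, Continuous (fun x => L (G (u x)) i) := fun i => (continuous_apply i).comp h1
  have h3 : ∀ i, Continuous (fun x => v x i) := fun i => (continuous_apply i).comp hv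
  have h4 : Continuous (fun x => dp (v x) (L (G (u x)))) := by
    unfold dp
    exact ((h3 0).mul (h2 0)).add ((h3 1).mul (h2 1))
  have h5 : Continuous (fun x => nn (G (u x))) := continuous_nn.comp h0
  exact ((continuous_const.mul h5).sub h4).add (hψ.comp hv)

theorem continuous_HH2 (K : ℝ) (L : E →L[ℝ] V) {G : V → E} {ψ : V → ℝ} (hG : Continuous G)
    (hψ : Continuous ψ) : Continuous (fun z : V × V => HH K L G ψ z.1 z.2) := by
  unfold HH
  have h0 : Continuous (fun z : V × V => G z.1) := hG.comp continuous_fst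
  have h1 : Continuous (fun z : V × V => L (G z.1)) := L.continuous.comp h0
  have h2 : ∀ i, Continuous (fun z : V × V => L (G z.1) i) := fun i =>
    (continuous_apply i).comp h1
  have h3 : ∀ i, Continuous (fun z : V × V => z.2 i) := fun i =>
    (continuous_apply i).comp continuous_snd
  have h4 : Continuous (fun z : V × V => dp z.2 (L (G z.1))) := by
    unfold dp
    exact ((h3 0).mul (h2 0)).add ((h3 1).mul (h2 1))
  have h5 : Continuous (fun z : V × V => nn (G z.1)) := continuous_nn.comp h0
  exact ((continuous_const.mul h5).sub h4).add (hψ.comp continuous_snd)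

/-- The limit of the joint functionals. -/
theorem lim_HH (K : ℝ) (L : E →L[ℝ] V) {G : V → E} {ψ : V → ℝ} (hG : Continuous G)
    (hψ : Continuous ψ) {q : ℕ → V → V} {p : V → V} {M : ℝ} (hq : ∀ n, Continuous (q n))
    (hb : ∀ n x i, |q n x i| ≤ M)
    (hl : ∀ x : V, (∀ i, 0 < x i ∧ x i < 1) → Tendsto (fun n => q n x) atTop (𝓝 (p x))) :
    Tendsto (fun n => ∫ x in Icc (0 : V) 1, HH K L G ψ x (q n x)) atTop
      (𝓝 (∫ x in Icc (0 : V) 1, HH K L G ψ x (p x))) := by
  have hK : IsCompact (Icc (0 : V) 1 ×ˢ Icc (fun _ : Fin 2 => -M) (fun _ : Fin 2 => M)) :=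
    isCompact_Icc.prod isCompact_Icc
  obtain ⟨C, hC⟩ := hK.exists_bound_of_continuousOn
    (f := fun z : V × V => HH K L G ψ z.1 z.2) (continuous_HH2 K L hG hψ).continuousOn
  have hm : ∀ n, AEStronglyMeasurable (fun x => HH K L G ψ x (q n x))
      (volume.restrict (Icc (0 : V) 1)) := by
    intro n
    have h1 : Continuous (fun x => HH K L G ψ x (q n x)) :=
      continuous_HH K L hG hψ (u := fun x => x) (v := q n) continuous_id (hq n)
    exact h1.aestronglyMeasurable
  have hcI : Integrable (fun _ : V => C) (volume.restrict (Icc (0 : V) 1)) :=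
    continuous_const.integrableOn_Icc
  have hbd : ∀ n, ∀ᵐ x ∂(volume.restrict (Icc (0 : V) 1)), ‖HH K L G ψ x (q n x)‖ ≤ C := by
    intro n
    filter_upwards [ae_restrict_mem measurableSet_Icc] with x hx
    have h1 : (x, q n x) ∈ Icc (0 : V) 1 ×ˢ Icc (fun _ : Fin 2 => -M) (fun _ : Fin 2 => M) := by
      refine ⟨hx, ?_⟩
      rw [mem_Icc]
      exact ⟨fun i => (abs_le.mp (hb n x i)).1, fun i => (abs_le.mp (hb n x i)).2⟩
    exact hC (x, q n x) h1
  have hae : ∀ᵐ x ∂(volume.restrict (Icc (0 : V) 1)),
      Tendsto (fun n => HH K L G ψ x (q n x)) atTop (𝓝 (HH K L G ψ x (p x))) := by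
    filter_upwards [ae_interior] with x hx
    have h1 : Tendsto (fun n => (x, q n x)) atTop (𝓝 (x, p x)) :=
      tendsto_const_nhds.prodMk_nhds (hl x hx)
    have h2 := (continuous_HH2 K L hG hψ).tendsto (x, p x)
    have h3 := h2.comp h1
    simpa only [Function.comp_def] using h3
  exact tendsto_integral_of_dominated_convergence (F := fun n x => HH K L G ψ x (q n x))
    (f := fun x => HH K L G ψ x (p x)) (fun _ => C) hm hcI hbd hae

theorem is : S_DUAL → S_REG → S_JOINT → S_APX → S_Is := by
  intro hdual hreg hjoint hapx L K δ φ hK hδ hφ hcv hline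
  obtain ⟨ψ, hψ, hd1, hd2, hd3⟩ := hdual L K δ φ hK hδ hcv hline
  have hφc : ConvexOn ℝ univ φ := by
    have h1 : ConvexOn ℝ univ (fun y : V => δ / 2 * dp y y) := by
      have h2 : ∀ i : Fin 2, ConvexOn ℝ univ (fun y : V => (y i) ^ 2) := by
        intro i
        refine ⟨convex_univ, ?_⟩
        intro x _ y _ s t hs ht hst
        simp only [smul_eq_mul, Pi.add_apply, Pi.smul_apply]
        have : t = 1 - s := by linarith
        subst this
        nlinarith [mul_nonneg hs ht, mul_nonneg (mul_nonneg hs ht) (sq_nonneg (x i - y i))]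
      have h3 := ((h2 0).add (h2 1)).smul (show (0:ℝ) ≤ δ / 2 by positivity)
      refine h3.congr ?_
      intro y _
      simp only [dp, Pi.add_apply, smul_eq_mul, Pi.smul_apply]
      ring
    refine (hcv.add h1).congr ?_
    intro y _
    simp
  have hnnc : Continuous (fun F : E => nn F) := by
    unfold nn
    fun_prop
  have hWc : Continuous (fun F : E => K / 2 * nn F - φ (L F)) :=
    (continuous_const.mul hnnc).sub (hφ.continuous.comp L.continuous)
  have hQ : QCtrig (fun F : E => K / 2 * nn F - φ (L F)) := by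
    intro ι _ F₀ k c d
    set G : V → E := fun x => F₀ + Fam k (grk k c) (grk k d) 1 x with hG
    have hGc : Continuous G := continuous_const.add (continuous_Fam k _ _ 1)
    -- the dual variable
    set p : V → V := fun x => gp φ (L (G x)) with hp
    have hpc : Continuous p := (continuous_gp hφ).comp (L.continuous.comp hGc)
    obtain ⟨M, hM⟩ : ∃ M : ℝ, ∀ x i, |p x i| ≤ M := by
      set r : ℝ := ‖F₀‖ + ∑ i, (‖grk k c i‖ + ‖grk k d i‖) with hr
      have hGr : ∀ x, G x ∈ Metric.closedBall (0 : E) r := by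
        intro x
        rw [mem_closedBall_zero_iff]
        exact (norm_add_le _ _).trans (add_le_add le_rfl (Fam_bound _ _ _ _))
      obtain ⟨M, hM⟩ := (isCompact_closedBall (0 : E) r).exists_bound_of_continuousOn
        (f := fun F : E => gp φ (L F)) ((continuous_gp hφ).comp L.continuous).continuousOn
      refine ⟨M, fun x i => ?_⟩
      have h1 := hM (G x) (hGr x)
      have h2 := norm_le_pi_norm (gp φ (L (G x))) i
      rw [Real.norm_eq_abs] at h2
      exact h2.trans h1
    set M' : ℝ := |M| + 1 with hM'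
    have hM'0 : 0 < M' := by positivity
    have hpM : ∀ x i, |p x i| ≤ M' := fun x i => (hM x i).trans (by
      have := le_abs_self M
      linarith)
    obtain ⟨q, hq1, hq2, hq3⟩ := hapx p M' hpc hpM
    have hqc : ∀ n, Continuous (q n) := by
      intro n
      obtain ⟨ι', _, k', A, B, p₀, _, hr⟩ := hq1 n
      have : q n = fun x => p₀ + FamG k' A B 1 x := funext hr
      rw [this]
      exact continuous_const.add (continuous_FamG _ _ _ _)
    -- the joint integrand
    have hHq : ∀ n, Continuous (fun x => HH K L G ψ x (q n x)) := fun n =>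
      continuous_HH K L hGc hψ continuous_id (hqc n)
    have hlim := lim_HH K L hGc hψ hqc hq2 hq3
    have heq : ∀ x, HH K L G ψ x (p x) = K / 2 * nn (G x) - φ (L (G x)) := by
      intro x
      have h1 := hd2 (p x) (L (G x)) (fun z => gp_ineq hφ hφc (L (G x)) z)
      unfold HH
      rw [h1]
      ring
    have hbound : ∀ ε : ℝ, 0 < ε → ∀ n, K / 2 * nn F₀ - φ (L F₀) ≤
        (∫ x in Icc (0 : V) 1, HH K L G ψ x (q n x)) + ε := by
      intro ε hε n
      obtain ⟨ψ', η, hψ'd, hη, hhs, hge, hle⟩ := hreg L K ψ hK hψ hd3 M' ε hM'0 hε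
      obtain ⟨ι', _, k', A, B, p₀, hk', hr⟩ := hq1 n
      have h1 := hjoint L K ψ' η hK hη hψ'd hhs ι ι' k c d k' A B F₀ p₀ hk'
      have h2 : ∫ x in Icc (0 : V) 1, (K / 2 * nn (F₀ + Fam k (grk k c) (grk k d) 1 x)
          - dp (p₀ + FamG k' A B 1 x) (L (F₀ + Fam k (grk k c) (grk k d) 1 x))
          + ψ' (p₀ + FamG k' A B 1 x)) ≤ ∫ x in Icc (0 : V) 1, (HH K L G ψ x (q n x) + ε) := by
        have c1 : Continuous (fun x : V => K / 2 * nn (F₀ + Fam k (grk k c) (grk k d) 1 x)
          - dp (p₀ + FamG k' A B 1 x) (L (F₀ + Fam k (grk k c) (grk k d) 1 x))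
          + ψ' (p₀ + FamG k' A B 1 x)) := by
          have e1 : (fun x : V => K / 2 * nn (F₀ + Fam k (grk k c) (grk k d) 1 x)
            - dp (p₀ + FamG k' A B 1 x) (L (F₀ + Fam k (grk k c) (grk k d) 1 x))
            + ψ' (p₀ + FamG k' A B 1 x)) = fun x => HH K L G ψ x (q n x) - ψ (q n x) + ψ' (q n x) := by
            funext x
            simp only [HH, hr]
            ring
          rw [e1]
          exact ((hHq n).sub (hψ.comp (hqc n))).add (hψ'd.continuous.comp (hqc n))
        apply integral_mono (c1.integrableOn_Icc)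
          (((hHq n).add continuous_const).integrableOn_Icc)
        intro x
        have h3 := hle (q n x) (hq2 n x)
        have h7 : HH K L G ψ x (q n x) = K / 2 * nn (F₀ + Fam k (grk k c) (grk k d) 1 x)
          - dp (q n x) (L (F₀ + Fam k (grk k c) (grk k d) 1 x)) + ψ (q n x) := rfl
        change _ ≤ HH K L G ψ x (q n x) + ε
        beta_reduce
        rw [h7, ← hr x]
        linarith
      have h3 : ∫ x in Icc (0 : V) 1, (HH K L G ψ x (q n x) + ε) =
          (∫ x in Icc (0 : V) 1, HH K L G ψ x (q n x)) + ε := by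
        rw [integral_add (hHq n).integrableOn_Icc continuous_const.integrableOn_Icc]
        congr 1
        rw [integral_const, smul_eq_mul]
        have : (volume.restrict (Icc (0 : V) 1)).real univ = 1 := by
          rw [Measure.real, Measure.restrict_apply_univ]
          exact volume_cube
        rw [this, one_mul]
      have h4 := hd1 p₀ (L F₀)
      have h5 := hge p₀
      rw [h3] at h2
      linarith
    have hfin : ∀ ε : ℝ, 0 < ε → K / 2 * nn F₀ - φ (L F₀) ≤
        (∫ x in Icc (0 : V) 1, HH K L G ψ x (p x)) + ε := by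
      intro ε hε
      exact ge_of_tendsto' (hlim.add_const ε) (hbound ε hε)
    have h6 := le_of_forall_pos_le_add hfin
    refine h6.trans (le_of_eq ?_)
    exact integral_congr_ae (Eventually.of_forall heq)
  intro F₀ Ω hΩ hb ϑ hϑ h0
  obtain ⟨K', hK'⟩ := hϑ
  have h := qc_of_trig hWc hQ F₀ hΩ hb hK' h0
  refine h.trans (le_of_eq ?_)
  apply integral_congr_ae
  refine Eventually.of_forall fun x => ?_
  have e : (show E from gr ϑ x) = (show E from LinearMap.toMatrix'
          ((fderiv ℝ ϑ x : (Fin 2 → ℝ) →L[ℝ] (Fin 2 → ℝ)) :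
            (Fin 2 → ℝ) →ₗ[ℝ] (Fin 2 → ℝ))) := by
    funext r l
    change gr ϑ x r l = LinearMap.toMatrix'
          ((fderiv ℝ ϑ x : (Fin 2 → ℝ) →L[ℝ] (Fin 2 → ℝ)) :
            (Fin 2 → ℝ) →ₗ[ℝ] (Fin 2 → ℝ)) r l
    rw [LinearMap.toMatrix'_apply]
    rfl
  have e2 := congrArg (fun X : E => K / 2 * nn ((show E from F₀) + X) -
    φ (L ((show E from F₀) + X))) e
  exact e2

end Pool.Agent.Q104.MD
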