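import Pool.Agent.Q82.MD.Stm

/-!
# Project MD of helper82: the job REG (mollification of the dual function)
-/

set_option autoImplicit false

namespace Pool.Agent.Q104.MD

open MeasureTheory Set Filter Topology
open Pool.Agent.W779.Morrey Pool.Agent.Q82.MD

/-! ### measures with bounded support -/

section mu

variable {μ : Measure V} [IsProbabilityMeasure μ] {ε : ℝ}

theorem integ (hs : ∀ᵐ s ∂μ, ∀ i, |s i| ≤ ε) {f : V → ℝ} (hf : Continuous f) :
    Integrable f μ := by
  obtain ⟨C, hC⟩ := (isCompact_Icc (a := fun _ : Fin 2 => -ε) (b := fun _ => ε)).exists_bound_of_continuousOn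
    hf.continuousOn
  refine Integrable.mono' (integrable_const C) hf.aestronglyMeasurable ?_
  filter_upwards [hs] with s hs
  apply hC
  rw [mem_Icc]
  exact ⟨fun i => (abs_le.mp (hs i)).1, fun i => (abs_le.mp (hs i)).2⟩

theorem integ2 (hs : ∀ᵐ s ∂μ, ∀ i, |s i| ≤ ε) {X : Type*} [NormedAddCommGroup X]
    [NormedSpace ℝ X] [FiniteDimensional ℝ X] {f : V → X} (hf : Continuous f) :
    Integrable f μ := by
  obtain ⟨C, hC⟩ := (isCompact_Icc (a := fun _ : Fin 2 => -ε) (b := fun _ => ε)).exists_bound_of_continuousOn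
    hf.continuousOn
  refine Integrable.mono' (integrable_const C) hf.aestronglyMeasurable ?_
  filter_upwards [hs] with s hs
  apply hC
  rw [mem_Icc]
  exact ⟨fun i => (abs_le.mp (hs i)).1, fun i => (abs_le.mp (hs i)).2⟩

theorem dp_add (a b c : V) : dp (a + b) c = dp a c + dp b c := by
  simp only [dp, Pi.add_apply]
  ring

theorem dp_add' (a b c : V) : dp a (b + c) = dp a b + dp a c := by
  simp only [dp, Pi.add_apply]
  ring

theorem dp_smul (t : ℝ) (a b : V) : dp (t • a) b = t * dp a b := by
  simp only [dp, Pi.smul_apply, smul_eq_mul]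
  ring

theorem dp_smul' (t : ℝ) (a b : V) : dp a (t • b) = t * dp a b := by
  simp only [dp, Pi.smul_apply, smul_eq_mul]
  ring

theorem dp_comm (a b : V) : dp a b = dp b a := by
  simp only [dp]
  ring

theorem dp_self_nonneg (a : V) : 0 ≤ dp a a := by
  simp only [dp]
  nlinarith [sq_nonneg (a 0), sq_nonneg (a 1)]

theorem continuous_dp_left (a : V) : Continuous (fun s : V => dp s a) := by
  unfold dp
  fun_prop

theorem continuous_dp_self : Continuous (fun s : V => dp s s) := by
  unfold dp
  fun_prop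

theorem int_dp (hs : ∀ᵐ s ∂μ, ∀ i, |s i| ≤ ε) (hm : ∀ i, ∫ s, s i ∂μ = 0) (a : V) :
    ∫ s, dp s a ∂μ = 0 := by
  have h1 : ∀ i : Fin 2, Integrable (fun s : V => s i) μ := fun i =>
    integ hs (continuous_apply i)
  unfold dp
  rw [integral_add ((h1 0).mul_const _) ((h1 1).mul_const _), integral_mul_const,
    integral_mul_const, hm, hm]
  ring

/-- Averages of a quadratic function. -/
theorem int_quad (hs : ∀ᵐ s ∂μ, ∀ i, |s i| ≤ ε) (hm : ∀ i, ∫ s, s i ∂μ = 0) (L : E →L[ℝ] V)
    (ξ p : V) : ∫ s, adj2 L ξ (p + s) ∂μ = adj2 L ξ p + ∫ s, adj2 L ξ s ∂μ := by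
  set a := L (rowm 0 ξ)
  set b := L (rowm 1 ξ)
  have h1 : ∀ s : V, adj2 L ξ (p + s) = (adj2 L ξ p + 2 * dp p a * dp s a + 2 * dp p b * dp s b)
      + adj2 L ξ s := by
    intro s
    simp only [adj2, dp_add]
    ring
  have c1 : Continuous (fun s : V => adj2 L ξ s) := by
    unfold adj2 dp
    fun_prop
  have c2 : Continuous (fun s : V => adj2 L ξ p + 2 * dp p a * dp s a + 2 * dp p b * dp s b) := by
    unfold dp
    fun_prop
  rw [integral_congr_ae (Eventually.of_forall h1), integral_add (integ hs c2) (integ hs c1)]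
  congr 1
  have i1 : Integrable (fun s : V => 2 * dp p a * dp s a) μ :=
    (integ hs (continuous_dp_left a)).const_mul _
  have i2 : Integrable (fun s : V => 2 * dp p b * dp s b) μ :=
    (integ hs (continuous_dp_left b)).const_mul _
  have i3 : Integrable (fun s : V => adj2 L ξ p + 2 * dp p a * dp s a) μ :=
    (integrable_const _).add i1
  rw [integral_add i3 i2, integral_add (integrable_const _) i1,
    integral_const_mul, integral_const_mul, int_dp hs hm, int_dp hs hm, integral_const]
  simp

/-- Averages of translates of a convex function are convex. -/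
theorem convex_int (hs : ∀ᵐ s ∂μ, ∀ i, |s i| ≤ ε) {h : V → ℝ} (hc : Continuous h)
    (hcv : ConvexOn ℝ univ h) : ConvexOn ℝ univ (fun p => ∫ s, h (p + s) ∂μ) := by
  have hi : ∀ p : V, Integrable (fun s => h (p + s)) μ := fun p =>
    integ hs (hc.comp (continuous_const.add continuous_id))
  refine ⟨convex_univ, ?_⟩
  intro x _ y _ a b ha hb hab
  simp only [smul_eq_mul]
  rw [← integral_const_mul, ← integral_const_mul, ← integral_add ((hi x).const_mul a)
    ((hi y).const_mul b)]
  apply integral_mono (hi _) (((hi x).const_mul a).add ((hi y).const_mul b))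
  intro s
  have h1 : a • x + b • y + s = a • (x + s) + b • (y + s) := by
    rw [smul_add, smul_add]
    have : s = (a + b) • s := by rw [hab, one_smul]
    nth_rewrite 1 [this]
    rw [add_smul]
    abel
  have h2 := hcv.2 (mem_univ (x + s)) (mem_univ (y + s)) ha hb hab
  simp only [smul_eq_mul] at h2
  simp only
  rw [h1]
  exact h2

theorem jensen (hs : ∀ᵐ s ∂μ, ∀ i, |s i| ≤ ε) (hm : ∀ i, ∫ s, s i ∂μ = 0) {h : V → ℝ}
    (hc : Continuous h) (hcv : ConvexOn ℝ univ h) (p : V) : h p ≤ ∫ s, h (p + s) ∂μ := by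
  have hid : Integrable (fun s : V => p + s) μ := integ2 hs (continuous_const.add continuous_id)
  have h1 := hcv.map_integral_le (μ := μ) (f := fun s : V => p + s) hc.continuousOn isClosed_univ
    (Eventually.of_forall fun _ => mem_univ _) hid
    (integ hs (hc.comp (continuous_const.add continuous_id)))
  have h2 : ∫ s : V, p + s ∂μ = p := by
    have h3 : ∀ i, (∫ s : V, p + s ∂μ) i = p i := by
      intro i
      have h4 := ContinuousLinearMap.integral_comp_comm
        (ContinuousLinearMap.proj (R := ℝ) (φ := fun _ : Fin 2 => ℝ) i) hid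
      simp only [ContinuousLinearMap.proj_apply] at h4
      rw [← h4]
      have h5 : ∀ s : V, (p + s) i = p i + s i := fun s => rfl
      rw [integral_congr_ae (Eventually.of_forall h5), integral_add (integrable_const _)
        (integ hs (continuous_apply i)), hm, integral_const]
      simp
    funext i
    exact h3 i
  rw [h2] at h1
  exact h1

end mu

/-- second derivatives of a function that is convex up to a quadratic polynomial on lines -/
theorem hs_ge {W : V → ℝ} (hW : ContDiff ℝ 2 W) (y p : V) (q : ℝ → ℝ) (c0 c1 c2 : ℝ)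
    (hq : ∀ t, q t = c0 + c1 * t + c2 * t ^ 2)
    (hcv : ConvexOn ℝ univ (fun t : ℝ => W (y + t • p) - q t)) : 2 * c2 ≤ hs W y p p := by
  have hP1 : ContDiff ℝ 1 (fderiv ℝ W) := hW.fderiv_right (by norm_num)
  have hline : ∀ t : ℝ, HasDerivAt (fun t : ℝ => y + t • p) p t := by
    intro t
    have := ((hasDerivAt_id t).smul_const p).const_add y
    simpa using this
  have hqf : q = fun t => c0 + c1 * t + c2 * t ^ 2 := funext hq
  have d1 : ∀ t : ℝ, HasDerivAt (fun t : ℝ => W (y + t • p) - q t)
      (fderiv ℝ W (y + t • p) p - (c1 + 2 * c2 * t)) t := by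
    intro t
    have a1 : HasDerivAt (fun t : ℝ => W (y + t • p)) (fderiv ℝ W (y + t • p) p) t :=
      (hW.differentiable (by norm_num) _).hasFDerivAt.comp_hasDerivAt t (hline t)
    have a2 : HasDerivAt q (c1 + 2 * c2 * t) t := by
      rw [hqf]
      have := (((hasDerivAt_id t).const_mul c1).const_add c0).add
        ((hasDerivAt_pow 2 t).const_mul c2)
      refine this.congr_deriv ?_
      norm_num
      ring
    exact a1.sub a2
  have hmono : Monotone (fun t : ℝ => fderiv ℝ W (y + t • p) p - (c1 + 2 * c2 * t)) := by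
    have h1 := hcv.monotoneOn_deriv (fun t _ => (d1 t).differentiableAt)
    have h2 : deriv (fun t : ℝ => W (y + t • p) - q t) =
        fun t : ℝ => fderiv ℝ W (y + t • p) p - (c1 + 2 * c2 * t) :=
      funext fun t => (d1 t).deriv
    rw [h2] at h1
    exact monotoneOn_univ.mp h1
  have d2 : HasDerivAt (fun t : ℝ => fderiv ℝ W (y + t • p) p - (c1 + 2 * c2 * t))
      (hs W y p p - 2 * c2) 0 := by
    have h2 : HasFDerivAt (fderiv ℝ W) (fderiv ℝ (fderiv ℝ W) y) (y + (0:ℝ) • p) := by
      rw [zero_smul, add_zero]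
      exact (hP1.differentiable (by norm_num) y).hasFDerivAt
    have h3 := h2.comp_hasDerivAt (0:ℝ) (hline 0)
    have h4 := h3.clm_apply (hasDerivAt_const (0:ℝ) p)
    have h5 : HasDerivAt (fun t : ℝ => fderiv ℝ W (y + t • p) p) (hs W y p p) 0 := by
      unfold hs
      simpa using h4
    have h6 : HasDerivAt (fun t : ℝ => c1 + 2 * c2 * t) (2 * c2) 0 := by
      have := ((hasDerivAt_id (0:ℝ)).const_mul (2 * c2)).const_add c1
      simpa using this
    exact h5.sub h6
  have := d2.nonneg_of_monotone hmono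
  linarith

theorem contDiff_dp_self : ContDiff ℝ 2 (fun s : V => dp s s) := by
  unfold dp
  fun_prop

theorem continuous_adj2 (L : E →L[ℝ] V) (ξ : V) : Continuous (fun s : V => adj2 L ξ s) := by
  unfold adj2 dp
  fun_prop

theorem adj2_line (L : E →L[ℝ] V) (ξ y p : V) (t : ℝ) : adj2 L ξ (y + t • p) =
    adj2 L ξ y + (2 * dp y (L (rowm 0 ξ)) * dp p (L (rowm 0 ξ)) +
      2 * dp y (L (rowm 1 ξ)) * dp p (L (rowm 1 ξ))) * t + adj2 L ξ p * t ^ 2 := by
  simp only [adj2, dp_add, dp_smul]
  ring

theorem dp_line (y p : V) (t : ℝ) : dp (y + t • p) (y + t • p) =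
    dp y y + 2 * dp y p * t + dp p p * t ^ 2 := by
  simp only [dp_add, dp_add', dp_smul, dp_smul', dp_comm p y]
  ring

/-- Convexity of a quadratic form on lines. -/
theorem convex_adj2 (L : E →L[ℝ] V) (ξ : V) : ConvexOn ℝ univ (fun p => adj2 L ξ p) := by
  have h : ∀ a : V, ConvexOn ℝ univ (fun p : V => dp p a ^ 2) := by
    intro a
    refine ⟨convex_univ, ?_⟩
    intro x _ y _ s t hs ht hst
    simp only [smul_eq_mul, dp_add, dp_smul]
    have : t = 1 - s := by linarith
    subst this
    nlinarith [mul_nonneg hs ht, mul_nonneg (mul_nonneg hs ht) (sq_nonneg (dp x a - dp y a))]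
  exact (h _).add (h _)

/-- **smooth strict approximation of `ψ` from above** -/
theorem reg : S_MOLL → S_REG := by
  intro hmoll L K ψ hK hψ hcv ρ ε hρ hε
  set η : ℝ := ε / (2 * (ρ ^ 2 + 1)) with hη
  have hη0 : 0 < η := by positivity
  -- the radius
  obtain ⟨r, hr0, hr⟩ : ∃ r : ℝ, 0 < r ∧ ∀ p s : V, (∀ i, |p i| ≤ ρ) → (∀ i, |s i| ≤ r) →
      ψ (p + s) ≤ ψ p + ε / 2 := by
    have huc := (isCompact_Icc (a := fun _ : Fin 2 => -(ρ + 1)) (b := fun _ =>
      ρ + 1)).uniformContinuousOn_of_continuous hψ.continuousOn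
    rw [Metric.uniformContinuousOn_iff] at huc
    obtain ⟨δ, hδ, hh⟩ := huc (ε / 2) (by linarith)
    refine ⟨min (δ / 2) 1, by positivity, ?_⟩
    intro p s hp hsr
    have hs1 : ∀ i, |s i| ≤ 1 := fun i => (hsr i).trans (min_le_right _ _)
    have hs2 : ∀ i, |s i| ≤ δ / 2 := fun i => (hsr i).trans (min_le_left _ _)
    have h1 := hh (p + s) (by
      rw [mem_Icc]
      constructor <;> intro i
      · have := abs_le.mp (hp i)
        have := abs_le.mp (hs1 i)
        simp only [Pi.add_apply]
        linarith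
      · have := abs_le.mp (hp i)
        have := abs_le.mp (hs1 i)
        simp only [Pi.add_apply]
        linarith) p (by
      rw [mem_Icc]
      constructor <;> intro i
      · have := abs_le.mp (hp i)
        linarith
      · have := abs_le.mp (hp i)
        linarith) (by
      rw [dist_eq_norm, add_sub_cancel_left, pi_norm_lt_iff hδ]
      intro i
      rw [Real.norm_eq_abs]
      linarith [hs2 i])
    rw [Real.dist_eq, abs_lt] at h1
    linarith [h1.2]
  obtain ⟨μ, hμ, hs, hm, hC⟩ := hmoll r hr0
  have hi : ∀ p : V, Integrable (fun s => ψ (p + s)) μ := fun p =>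
    integ hs (hψ.comp (continuous_const.add continuous_id))
  refine ⟨fun p => ∫ s, ψ (p + s) ∂μ + η / 2 * dp p p, η, ?_, hη0, ?_, ?_, ?_⟩
  · exact (hC ψ hψ).add (contDiff_const.mul contDiff_dp_self)
  · intro y ξ p hξ
    have hcont : Continuous (fun p => ψ p - 1 / (2 * K) * adj2 L ξ p) :=
      hψ.sub (continuous_const.mul (continuous_adj2 L ξ))
    have h1 := convex_int hs hcont (hcv ξ hξ)
    have h2 : ∀ x : V, ∫ s, (ψ (x + s) - 1 / (2 * K) * adj2 L ξ (x + s)) ∂μ =
        ∫ s, ψ (x + s) ∂μ - 1 / (2 * K) * (adj2 L ξ x + ∫ s, adj2 L ξ s ∂μ) := by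
      intro x
      have i4 : Integrable (fun s => 1 / (2 * K) * adj2 L ξ (x + s)) μ :=
        (integ hs ((continuous_adj2 L ξ).comp (continuous_const.add continuous_id))).const_mul _
      rw [integral_sub (hi x) i4, integral_const_mul, int_quad hs hm]
    set Q := ∫ s, adj2 L ξ s ∂μ
    have h3 := hs_ge (W := fun p => ∫ s, ψ (p + s) ∂μ + η / 2 * dp p p)
      ((hC ψ hψ).add (contDiff_const.mul contDiff_dp_self)) y p
      (fun t => 1 / (2 * K) * (adj2 L ξ (y + t • p) + Q) + η / 2 * dp (y + t • p) (y + t • p))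
      (1 / (2 * K) * (adj2 L ξ y + Q) + η / 2 * dp y y)
      (1 / (2 * K) * (2 * dp y (L (rowm 0 ξ)) * dp p (L (rowm 0 ξ)) +
      2 * dp y (L (rowm 1 ξ)) * dp p (L (rowm 1 ξ))) + η / 2 * (2 * dp y p))
      (1 / (2 * K) * adj2 L ξ p + η / 2 * dp p p) (by
        intro t
        simp only [adj2_line, dp_line]
        ring) (by
        have h4 : (fun t : ℝ => (∫ s, ψ (y + t • p + s) ∂μ + η / 2 * dp (y + t • p) (y + t • p)) -
            (1 / (2 * K) * (adj2 L ξ (y + t • p) + Q) + η / 2 * dp (y + t • p) (y + t • p))) =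
            (fun x : V => ∫ s, (ψ (x + s) - 1 / (2 * K) * adj2 L ξ (x + s)) ∂μ) ∘
              (fun t : ℝ => y + t • p) := by
          funext t
          simp only [Function.comp]
          rw [h2]
          ring
        rw [h4]
        refine ⟨convex_univ, ?_⟩
        intro a _ b _ u v hu hv huv
        have h5 := h1.2 (mem_univ (y + a • p)) (mem_univ (y + b • p)) hu hv huv
        have h6 : y + (u • a + v • b) • p = u • (y + a • p) + v • (y + b • p) := by
          rw [smul_add, smul_add]
          have : y = (u + v) • y := by rw [huv, one_smul]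
          nth_rewrite 1 [this]
          rw [add_smul, add_smul, smul_eq_mul, smul_eq_mul, smul_smul, smul_smul]
          abel
        simp only [Function.comp]
        rw [h6]
        exact h5)
    refine le_trans (le_of_eq ?_) h3
    field_simp
    ring
  · intro p
    have h1 : ConvexOn ℝ univ ψ := by
      have h2 := (hcv ![1, 0] (by simp [dp])).add
        ((convex_adj2 L ![1, 0]).smul (show (0:ℝ) ≤ 1 / (2 * K) by positivity))
      refine h2.congr ?_
      intro x _
      simp
    have h2 := jensen hs hm hψ h1 p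
    have h3 := dp_self_nonneg p
    have : 0 ≤ η / 2 * dp p p := by positivity
    simp only
    linarith
  · intro p hp
    have h1 : ∫ s, ψ (p + s) ∂μ ≤ ψ p + ε / 2 := by
      have h2 : ∫ s, ψ (p + s) ∂μ ≤ ∫ _s, (ψ p + ε / 2) ∂μ := by
        apply integral_mono_ae (hi p) (integrable_const _)
        filter_upwards [hs] with s hs
        exact hr p s hp hs
      refine h2.trans (le_of_eq ?_)
      rw [integral_const]
      simp
    have h2 : dp p p ≤ 2 * ρ ^ 2 := by
      unfold dp
      have h3 := sq_le_sq' (abs_le.mp (hp 0)).1 (abs_le.mp (hp 0)).2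
      have h4 := sq_le_sq' (abs_le.mp (hp 1)).1 (abs_le.mp (hp 1)).2
      nlinarith
    have h3 : η / 2 * dp p p ≤ ε / 2 := by
      calc η / 2 * dp p p ≤ η / 2 * (2 * ρ ^ 2) := by
            apply mul_le_mul_of_nonneg_left h2 (by positivity)
        _ = η * ρ ^ 2 := by ring
        _ ≤ η * (ρ ^ 2 + 1) := by nlinarith
        _ = ε / 2 := by
          rw [hη]
          field_simp
    simp only
    linarith

end Pool.Agent.Q104.MD
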